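import Mathlib

namespace Pool.Agent.H.MP_1ed35b_co.A

open Finset

def minT (f : ℕ → ℕ) (v : ℕ) : List (ℕ × ℕ) → ℕ → ℕ → ℕ
  | [], d, s => if d = 0 ∧ s = 0 then 0 else 1000000
  | p :: L, d, s =>
    if d * p.1 < s then 1000000 else
      (List.range (min d (if p.1 = v then p.2 - 1 else p.2) + 1)).foldr
        (fun k b => if k * p.1 ≤ s then min b (k * f p.1 + minT f v L (d - k) (s - k * p.1)) else b)
        1000000

lemma foldr_le (g : ℕ → ℕ) (P : ℕ → Prop) [DecidablePred P] (z : ℕ) (l : List ℕ) (k : ℕ)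
    (hk : k ∈ l) (hP : P k) :
    l.foldr (fun k b => if P k then min b (g k) else b) z ≤ g k := by
  induction l with
  | nil => simp at hk
  | cons x l ih =>
    simp only [List.foldr_cons]
    rcases List.mem_cons.1 hk with rfl | h
    · rw [if_pos hP]; exact min_le_right _ _
    · have := ih h
      split_ifs
      · exact le_trans (min_le_left _ _) this
      · exact this

lemma sum_le_mul (t : ℕ → ℕ) (w : ℕ) (L : List (ℕ × ℕ)) (h : ∀ p ∈ L, p.1 ≤ w) :
    (L.map fun p => t p.1 * p.1).sum ≤ (L.map fun p => t p.1).sum * w := by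
  induction L with
  | nil => simp
  | cons p L ih =>
    simp only [List.map_cons, List.sum_cons]
    have h1 := ih (fun q hq => h q (List.mem_cons_of_mem _ hq))
    have h2 := Nat.mul_le_mul_left (t p.1) (h p List.mem_cons_self)
    rw [add_mul]; omega

lemma minT_le (f : ℕ → ℕ) (v : ℕ) (t : ℕ → ℕ) (L : List (ℕ × ℕ))
    (hs : L.Pairwise (fun p q => q.1 ≤ p.1))
    (ht : ∀ p ∈ L, t p.1 ≤ if p.1 = v then p.2 - 1 else p.2) :
    minT f v L (L.map fun p => t p.1).sum (L.map fun p => t p.1 * p.1).sum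
      ≤ (L.map fun p => t p.1 * f p.1).sum := by
  induction L with
  | nil => simp [minT]
  | cons p L ih =>
    have hs' := List.pairwise_cons.1 hs
    have h0 := sum_le_mul t p.1 (p :: L) (by
      intro q hq
      rcases List.mem_cons.1 hq with rfl | h
      · exact le_rfl
      · exact hs'.1 q h)
    have h1 := ih hs'.2 (fun q hq => ht q (List.mem_cons_of_mem _ hq))
    have h2 := ht p List.mem_cons_self
    rw [minT, if_neg (by omega)]
    simp only [List.map_cons, List.sum_cons] at h0 ⊢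
    refine le_trans (foldr_le (fun k => k * f p.1 + minT f v L _ _) (fun k => k * p.1 ≤ _) _ _
      (t p.1) ?_ ?_) ?_
    · rw [List.mem_range]; omega
    · omega
    · rw [Nat.add_sub_cancel_left, Nat.add_sub_cancel_left]; omega

def go (chk : List (ℕ × ℕ) → Bool) (m N T : ℕ) : ℕ → ℕ → ℕ → ℕ → List (ℕ × ℕ) → Bool
  | 0, l, s, q, acc => !(l == 0 && s == 0 && q == 0) || chk acc.reverse
  | w + 1, l, s, q, acc =>
    if l * w < s ∨ (w + m) * s < q + m * w * l ∨ l * q < s * s ∨
        ((m + 1) * w < N ∧ T + m * w < N + s) then true else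
      (List.range (min l (q / (w * w) + (1 - w) * l) + 1)).all fun c =>
        if s < c * w then true else
          go chk m N T w (l - c) (s - c * w) (q - c * (w * w))
            (if c = 0 then acc else (w, c) :: acc)

def pres (cnt : ℕ → ℕ) : ℕ → List (ℕ × ℕ)
  | 0 => []
  | w + 1 => if cnt w = 0 then pres cnt w else (w, cnt w) :: pres cnt w

lemma go_sound (chk : List (ℕ × ℕ) → Bool) (m N T : ℕ) (cnt : ℕ → ℕ)
    (h0 : ∀ x < m, cnt x = 0) (v : ℕ)
    (hP : ∀ w < v, ¬((m + 1) * w < N ∧ T + m * w < N + ∑ x ∈ range (w + 1), cnt x * x))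
    (acc : List (ℕ × ℕ))
    (h : go chk m N T v (∑ w ∈ range v, cnt w) (∑ w ∈ range v, cnt w * w)
      (∑ w ∈ range v, cnt w * (w * w)) acc = true) :
    chk (acc.reverse ++ pres cnt v) = true := by
  induction v generalizing acc with
  | zero => simpa [go, pres] using h
  | succ w ih =>
    have e1 : ∑ x ∈ range (w + 1), cnt x * x ≤ (∑ x ∈ range (w + 1), cnt x) * w := by
      rw [sum_mul]
      exact sum_le_sum fun x hx => Nat.mul_le_mul_left _ (by have := mem_range.1 hx; omega)
    have e2 : ∑ x ∈ range (w + 1), cnt x * (x * x) + m * w * ∑ x ∈ range (w + 1), cnt x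
        ≤ (w + m) * ∑ x ∈ range (w + 1), cnt x * x := by
      rw [mul_sum, mul_sum, ← sum_add_distrib]
      refine sum_le_sum fun x hx => ?_
      rcases Nat.lt_or_ge x m with hxm | hxm
      · simp [h0 x hxm]
      · obtain ⟨y, rfl⟩ := Nat.exists_eq_add_of_le hxm
        obtain ⟨z, rfl⟩ := Nat.exists_eq_add_of_le (Nat.lt_succ_iff.1 (mem_range.1 hx))
        generalize cnt (m + y) = c
        nlinarith [Nat.zero_le (c * y * z)]
    have e4 := hP w (Nat.lt_succ_self w)
    have e3 : (∑ x ∈ range (w + 1), cnt x * x) ^ 2 ≤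
        (∑ x ∈ range (w + 1), cnt x) * ∑ x ∈ range (w + 1), cnt x * (x * x) :=
      sum_sq_le_sum_mul_sum_of_sq_le_mul _ (fun _ _ => Nat.zero_le _) (fun _ _ => Nat.zero_le _)
        (fun x _ => le_of_eq (by ring))
    rw [sq] at e3
    rw [go, if_neg (by omega), List.all_eq_true] at h
    have h1 := h (cnt w) (by
      rw [List.mem_range, Nat.lt_succ_iff, le_min_iff, sum_range_succ, sum_range_succ]
      refine ⟨by omega, ?_⟩
      rcases Nat.eq_zero_or_pos w with rfl | hw
      · simp
      · refine le_trans ?_ (Nat.le_add_right _ _)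
        rw [Nat.le_div_iff_mul_le (Nat.mul_pos hw hw)]
        omega)
    rw [sum_range_succ, sum_range_succ, sum_range_succ, if_neg (by omega), Nat.add_sub_cancel,
      Nat.add_sub_cancel, Nat.add_sub_cancel] at h1
    have h2 := ih (fun x hx => hP x (Nat.lt_succ_of_lt hx)) _ h1
    rw [pres]
    split_ifs at h2 ⊢ with hc
    · exact h2
    · simpa using h2

lemma pres_mem (cnt : ℕ → ℕ) (v : ℕ) (p : ℕ × ℕ) :
    p ∈ pres cnt v ↔ p.1 < v ∧ p.2 = cnt p.1 ∧ cnt p.1 ≠ 0 := by
  induction v with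
  | zero => simp [pres]
  | succ w ih =>
    rw [pres]
    obtain ⟨a, b⟩ := p
    split_ifs with hc
    · rw [ih]
      constructor
      · rintro ⟨h1, h2, h3⟩; exact ⟨by omega, h2, h3⟩
      · rintro ⟨h1, h2, h3⟩
        refine ⟨?_, h2, h3⟩
        rcases Nat.lt_succ_iff_lt_or_eq.1 h1 with h | h
        · exact h
        · simp only at h h3; rw [h] at h3; exact absurd hc h3
    · rw [List.mem_cons, ih]
      constructor
      · rintro (h | ⟨h1, h2, h3⟩)
        · obtain ⟨rfl, rfl⟩ := Prod.mk.inj h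
          exact ⟨by simp, rfl, hc⟩
        · exact ⟨by omega, h2, h3⟩
      · rintro ⟨h1, h2, h3⟩
        rcases Nat.lt_succ_iff_lt_or_eq.1 h1 with h | h
        · exact Or.inr ⟨h, h2, h3⟩
        · left; simp only at h h2; rw [h2, h]

lemma pres_sorted (cnt : ℕ → ℕ) (v : ℕ) : (pres cnt v).Pairwise (fun p q => q.1 ≤ p.1) := by
  induction v with
  | zero => simp [pres]
  | succ w ih =>
    rw [pres]
    split_ifs with hc
    · exact ih
    · refine List.pairwise_cons.2 ⟨fun q hq => ?_, ih⟩
      have := ((pres_mem cnt w q).1 hq).1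
      simp only; omega

lemma pres_sum (cnt : ℕ → ℕ) (g : ℕ → ℕ) (hg : ∀ w, cnt w = 0 → g w = 0) (v : ℕ) :
    ((pres cnt v).map fun p => g p.1).sum = ∑ w ∈ range v, g w := by
  induction v with
  | zero => simp [pres]
  | succ w ih =>
    rw [pres, sum_range_succ]
    split_ifs with hc
    · rw [ih, hg w hc, add_zero]
    · simp only [List.map_cons, List.sum_cons, ih]; omega

def tb (L : List (ℕ × ℕ)) (code v w : ℕ) : ℕ :=
  min 40 ((code >>> (6 * (8 * (L.countP fun p => p.1 < v) + L.countP fun p => p.1 < w))) % 64)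

def phi (L : List (ℕ × ℕ)) (code v w : ℕ) : ℕ :=
  if v < w then tb L code v w else if v = w then 20 else 40 - tb L code w v

lemma phi_add (L : List (ℕ × ℕ)) (code v w : ℕ) : phi L code v w + phi L code w v = 40 := by
  have h1 : tb L code v w ≤ 40 := min_le_left _ _
  have h2 : tb L code w v ≤ 40 := min_le_left _ _
  unfold phi
  split_ifs <;> omega

def key (L : List (ℕ × ℕ)) : ℕ := L.foldr (fun p b => (b * 32 + p.1) * 32 + p.2) 0

def cert (a : ℕ) (L : List (ℕ × ℕ)) (code : ℕ) : Bool :=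
  decide (20 * (60 + a) <
    (L.map fun p => p.2 * minT (phi L code p.1) p.1 L (p.1 + 1) (a + p.1 + 4)).sum)

def sp : List (ℕ × ℕ) := [(5, 2), (4, 1), (3, 2), (2, 7), (1, 8)]

def chk (a : ℕ) (C : List (ℕ × ℕ)) (L : List (ℕ × ℕ)) : Bool :=
  (L.reverse.any fun p => minT (fun _ => 0) p.1 L (p.1 + 1) (a + p.1 + 4) != 0) ||
    (C.any fun c => c.1 == key L && cert a L c.2) || (a == 2 && L == sp)

end Pool.Agent.H.MP_1ed35b_co.A
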