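import Pool.Agent.H.MP_1ed35b_co.A

namespace Pool.Agent.H.MP_1ed35b_co.B

open Finset Pool.Agent.H.MP_1ed35b_co.A

lemma swap {n : ℕ} (H : SimpleGraph (Fin n)) [DecidableRel H.Adj] (F : Fin n → Fin n → ℕ) :
    ∑ i, ∑ j ∈ H.neighborFinset i, F i j = ∑ i, ∑ j ∈ H.neighborFinset i, F j i := by
  refine sum_comm' (fun i j => ?_)
  simp [H.adj_comm]

lemma sq_sum {n : ℕ} (H : SimpleGraph (Fin n)) [DecidableRel H.Adj] (g : Fin n → ℕ) :
    ∑ i, ∑ j ∈ H.neighborFinset i, g j = ∑ i, H.degree i * g i := by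
  rw [swap H (fun _ j => g j)]
  simp

def cnt (u : Fin 20 → ℕ) (S : Finset (Fin 20)) (w : ℕ) : ℕ := #{j ∈ S | u j = w}

lemma fib (u : Fin 20 → ℕ) (hu : ∀ i, u i < 18) (S : Finset (Fin 20)) (f : ℕ → ℕ) :
    ∑ w ∈ range 18, cnt u S w * f w = ∑ j ∈ S, f (u j) := by
  rw [← sum_fiberwise_of_maps_to (s := S) (t := range 18) (g := u)
    (fun i _ => mem_range.2 (hu i))]
  refine sum_congr rfl fun w _ => ?_
  rw [sum_congr rfl (g := fun _ => f w) (fun j hj => by rw [(mem_filter.1 hj).2])]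
  simp [cnt]

lemma cnt_le (u : Fin 20 → ℕ) (S : Finset (Fin 20)) (w : ℕ) : cnt u S w ≤ cnt u univ w :=
  card_le_card (filter_subset_filter _ (subset_univ _))

lemma fibL (u : Fin 20 → ℕ) (hu : ∀ i, u i < 18) (S : Finset (Fin 20)) (f : ℕ → ℕ) :
    ((pres (cnt u univ) 18).map fun p => cnt u S p.1 * f p.1).sum = ∑ j ∈ S, f (u j) := by
  rw [← fib u hu]
  refine pres_sum (cnt u univ) (fun w => cnt u S w * f w) (fun w hw => ?_) 18
  have := cnt_le u S w
  have h0 : cnt u S w = 0 := by omega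
  rw [h0, zero_mul]

lemma cap (H : SimpleGraph (Fin 20)) [DecidableRel H.Adj] (u : Fin 20 → ℕ) (i : Fin 20) :
    ∀ p ∈ pres (cnt u univ) 18,
      cnt u (H.neighborFinset i) p.1 ≤ if p.1 = u i then p.2 - 1 else p.2 := by
  intro p hp
  rw [((pres_mem _ _ _).1 hp).2.1]
  split_ifs with h
  · have : cnt u (H.neighborFinset i) p.1 < cnt u univ p.1 := by
      refine card_lt_card ⟨filter_subset_filter _ (subset_univ _), fun hh => ?_⟩
      have h1 : i ∈ ({j ∈ univ | u j = p.1} : Finset (Fin 20)) := by simp [h]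
      have h2 : i ∈ ({j ∈ H.neighborFinset i | u j = p.1} : Finset (Fin 20)) := hh h1
      simp at h2
    omega
  · exact cnt_le _ _ _

lemma top (u : Fin 20 → ℕ) (hu : ∀ i, u i < 18) (w : ℕ) (hw : w < 18) (j1 j2 : Fin 20)
    (hj : j1 ≠ j2) :
    ∑ x ∈ range (w + 1), cnt u univ x * x + ((if w < u j1 then u j1 else 0)
      + if w < u j2 then u j2 else 0) ≤ ∑ j, u j := by
  have h1 := fib u hu univ (fun x => if w < x then 0 else x)
  have h2 : ∑ x ∈ range (w + 1), cnt u univ x * x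
      ≤ ∑ x ∈ range 18, cnt u univ x * (if w < x then 0 else x) := by
    refine le_trans (le_of_eq ?_)
      (sum_le_sum_of_subset (range_subset_range.2 (show w + 1 ≤ 18 by omega)))
    refine sum_congr rfl fun x hx => ?_
    rw [if_neg (by have := mem_range.1 hx; omega)]
  have h3 : ∑ j ∈ ({j1, j2} : Finset (Fin 20)), (if w < u j then u j else 0)
      ≤ ∑ j, (if w < u j then u j else 0) := sum_le_sum_of_subset (subset_univ _)
  rw [sum_pair hj] at h3
  have h4 : ∑ j, (if w < u j then 0 else u j) + ∑ j, (if w < u j then u j else 0)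
      = ∑ j, u j := by
    rw [← sum_add_distrib]
    refine sum_congr rfl fun j _ => ?_
    split_ifs <;> simp
  omega

def L4 : List (ℕ × ℕ) := [(5, 2), (4, 1), (3, 2), (2, 7)]

def cd (l : ℕ) : ℕ :=
  if l = 0 then 7108743963977537444089204188476431675871704383042880
  else if l = 1 then 6734599544820824967801065086385262953087515603576192
  else if l = 2 then 6734599544820824947031877652245952438965530286695808
  else 9353610478917811055666792752679564795909162690245952

def Bsp (l v : ℕ) : ℕ :=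
  if v = 4 then l * phi sp (cd l) 4 1 + minT (phi sp (cd l) 4) 4 L4 (5 - l) (10 - l)
  else minT (phi sp (cd l) v) v sp (v + 1) (2 + v + 4)

lemma Bsp_big : ∀ l < 6, 20 * (60 + 2) < (sp.map fun p => p.2 * Bsp l p.1).sum := by
  decide +kernel

lemma L4_sub : ∀ p ∈ L4, p ∈ sp := by decide

lemma L4_sorted : L4.Pairwise (fun p q => q.1 ≤ p.1) := by decide

lemma spv (t F : ℕ → ℕ) (m1 : (sp.map fun p => t p.1).sum = 4 + 1)
    (m2 : (sp.map fun p => t p.1 * p.1).sum = 2 + 4 + 4)
    (m3 : ∀ p ∈ sp, t p.1 ≤ if p.1 = 4 then p.2 - 1 else p.2) :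
    t 1 < 6 ∧ t 1 * F 1 + minT F 4 L4 (5 - t 1) (10 - t 1) ≤ (sp.map fun p => t p.1 * F p.1).sum := by
  have g1 := minT_le F 4 t L4 L4_sorted (fun p hp => m3 p (L4_sub p hp))
  have s1 : (L4.map fun p => t p.1).sum = 5 - t 1 := by
    simp only [L4, sp, List.map_cons, List.map_nil, List.sum_cons, List.sum_nil] at m1 ⊢
    omega
  have s2 : (L4.map fun p => t p.1 * p.1).sum = 10 - t 1 := by
    simp only [L4, sp, List.map_cons, List.map_nil, List.sum_cons, List.sum_nil] at m2 ⊢
    omega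
  rw [s1, s2] at g1
  generalize minT F 4 L4 (5 - t 1) (10 - t 1) = X at g1 ⊢
  simp only [L4, sp, List.map_cons, List.map_nil, List.sum_cons, List.sum_nil] at g1 m1 ⊢
  omega

lemma Bsp4 (l : ℕ) :
    Bsp l 4 = l * phi sp (cd l) 4 1 + minT (phi sp (cd l) 4) 4 L4 (5 - l) (10 - l) := if_pos rfl

lemma BspN (l v : ℕ) (h : v ≠ 4) :
    Bsp l v = minT (phi sp (cd l) v) v sp (v + 1) (2 + v + 4) := if_neg h

theorem core (H : SimpleGraph (Fin 20)) [DecidableRel H.Adj] (u : Fin 20 → ℕ) (a : ℕ)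
    (hd : ∀ i, H.degree i = u i + 1) (hu : ∀ i, u i < 18)
    (hs : ∀ i, ∑ j ∈ H.neighborFinset i, u j = a + u i + 4) (ht : ∑ i, u i = a + 40)
    (hq : ∑ i, u i * u i = 20 * a + 80) (C : List (ℕ × ℕ)) (m : ℕ) (hm1 : m ≤ 1)
    (hm : ∀ i, m ≤ u i) (hN : ∃ j1 j2, j1 ≠ j2 ∧ a + 4 + m ≤ u j1 + m * u j2)
    (hgo : go (chk a C) m (a + 4 + m) (a + 40) 18 20 (a + 40) (20 * a + 80) [] = true) :
    False := by
  have k1 : ∑ w ∈ range 18, cnt u univ w = 20 := by
    simpa using fib u hu univ (fun _ => 1)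
  have k2 : ∑ w ∈ range 18, cnt u univ w * w = a + 40 := by
    rw [← ht]; exact fib u hu univ (fun w => w)
  have k3 : ∑ w ∈ range 18, cnt u univ w * (w * w) = 20 * a + 80 := by
    rw [← hq]; exact fib u hu univ (fun w => w * w)
  have z0 : ∀ x < m, cnt u univ x = 0 := by
    intro x hx
    refine card_eq_zero.2 (filter_eq_empty_iff.2 fun j _ hj => ?_)
    have := hm j
    omega
  have zP : ∀ w < 18, ¬((m + 1) * w < a + 4 + m ∧
      a + 40 + m * w < a + 4 + m + ∑ x ∈ range (w + 1), cnt u univ x * x) := by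
    intro w hw
    obtain ⟨j1, j2, hj, hN⟩ := hN
    have y1 := top u hu w hw j1 j2 hj
    rw [ht] at y1
    interval_cases m <;> split_ifs at y1 <;> omega
  have hc := go_sound (chk a C) m (a + 4 + m) (a + 40) (cnt u univ) z0 18 zP []
    (by rw [k1, k2, k3]; exact hgo)
  simp only [List.reverse_nil, List.nil_append] at hc
  have n1 : ∀ i, ((pres (cnt u univ) 18).map fun p => cnt u (H.neighborFinset i) p.1).sum
      = u i + 1 := by
    intro i
    have := fibL u hu (H.neighborFinset i) (fun _ => 1)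
    simpa [hd i] using this
  have n2 : ∀ i, ((pres (cnt u univ) 18).map fun p => cnt u (H.neighborFinset i) p.1 * p.1).sum
      = a + u i + 4 := by
    intro i
    rw [← hs i]; exact fibL u hu (H.neighborFinset i) (fun w => w)
  have vb : ∀ (f : ℕ → ℕ) i, minT f (u i) (pres (cnt u univ) 18) (u i + 1) (a + u i + 4)
      ≤ ∑ j ∈ H.neighborFinset i, f (u j) := by
    intro f i
    have := minT_le f (u i) (cnt u (H.neighborFinset i)) _ (pres_sorted _ 18) (cap H u i)
    rwa [n1, n2, fibL u hu] at this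
  have glob : ∀ (B : ℕ → ℕ) (f : ℕ → ℕ → ℕ), (∀ v w, f v w + f w v = 40) →
      (∀ i, B (u i) ≤ ∑ j ∈ H.neighborFinset i, f (u i) (u j)) →
      ((pres (cnt u univ) 18).map fun p => p.2 * B p.1).sum ≤ 20 * (60 + a) := by
    intro B f hf hB
    rw [List.map_congr_left (g := fun p => cnt u univ p.1 * B p.1)
      (fun p hp => by rw [((pres_mem _ _ _).1 hp).2.1]), fibL u hu]
    have h1 : ∑ i, B (u i) ≤ ∑ i, ∑ j ∈ H.neighborFinset i, f (u i) (u j) :=
      sum_le_sum fun i _ => hB i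
    have h2 := swap H (fun i j => f (u i) (u j))
    have h3 : ∑ i, ∑ j ∈ H.neighborFinset i, f (u i) (u j)
        + ∑ i, ∑ j ∈ H.neighborFinset i, f (u j) (u i) = ∑ i, (u i + 1) * 40 := by
      rw [← sum_add_distrib]
      refine sum_congr rfl fun i _ => ?_
      rw [← sum_add_distrib, sum_congr rfl (g := fun _ => 40) (fun j _ => hf _ _)]
      simp [hd i]
    rw [← sum_mul, sum_add_distrib, ht] at h3
    simp only [sum_const, card_univ, Fintype.card_fin, smul_eq_mul] at h3
    omega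
  simp only [chk, Bool.or_eq_true, List.any_eq_true, Bool.and_eq_true, beq_iff_eq,
    bne_iff_ne, List.mem_reverse] at hc
  rcases hc with (⟨p, hp, h⟩ | ⟨c, _, _, h⟩) | ⟨rfl, h⟩
  · obtain ⟨i, hi⟩ := card_pos.1 (Nat.pos_of_ne_zero ((pres_mem _ _ _).1 hp).2.2)
    have := vb (fun _ => 0) i
    rw [(mem_filter.1 hi).2] at this
    simp only [sum_const_zero, Nat.le_zero] at this
    exact h this
  · have := glob (fun v => minT (phi (pres (cnt u univ) 18) c.2 v) v (pres (cnt u univ) 18)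
      (v + 1) (a + v + 4)) (phi (pres (cnt u univ) 18) c.2) (phi_add _ _) (fun i => vb _ i)
    rw [cert, decide_eq_true_eq] at h
    omega
  · have h4 : cnt u univ 4 = 1 := by
      have : ((4, 1) : ℕ × ℕ) ∈ pres (cnt u univ) 18 := by rw [h]; decide
      exact ((pres_mem _ _ _).1 this).2.1.symm
    obtain ⟨i0, hi0⟩ := card_eq_one.1 h4
    have huniq : ∀ i, u i = 4 → i = i0 := by
      intro i hi
      have : i ∈ ({j ∈ univ | u j = 4} : Finset (Fin 20)) := by simp [hi]
      rw [hi0] at this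
      exact mem_singleton.1 this
    have hu0 : u i0 = 4 := by
      have : i0 ∈ ({j ∈ univ | u j = 4} : Finset (Fin 20)) := by rw [hi0]; simp
      exact (mem_filter.1 this).2
    have m1 := n1 i0
    have m2 := n2 i0
    have m3 := cap H u i0
    rw [h, hu0] at m1 m2 m3
    have hl := (spv _ (fun _ => 0) m1 m2 m3).1
    obtain ⟨l, hl0⟩ : ∃ l, l = cnt u (H.neighborFinset i0) 1 := ⟨_, rfl⟩
    have hb := Bsp_big l (by rw [hl0]; exact hl)
    have hv : ∀ i, Bsp l (u i) ≤ ∑ j ∈ H.neighborFinset i, phi sp (cd l) (u i) (u j) := by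
      intro i
      by_cases hi : u i = 4
      · have g1 := (spv _ (phi sp (cd l) 4) m1 m2 m3).2
        have g2 := fibL u hu (H.neighborFinset i0) (phi sp (cd l) 4)
        rw [h] at g2
        rw [g2, ← hl0, ← Bsp4] at g1
        rw [huniq i hi, hu0]
        exact g1
      · rw [BspN _ _ hi]
        have := vb (phi sp (cd l) (u i)) i
        rwa [h] at this
    have h9 := glob (Bsp l) (phi sp (cd l)) (phi_add _ _) hv
    rw [h] at h9
    exact absurd hb (not_lt.2 h9)

end Pool.Agent.H.MP_1ed35b_co.B
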