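import Pool.Agent.H.MP_1ed35b_co.B

namespace Pool.Agent.H.MP_1ed35b_co.D

open Finset Pool.Agent.H.MP_1ed35b_co.A Pool.Agent.H.MP_1ed35b_co.B

lemma split {n : ℕ} (G : SimpleGraph (Fin n)) [DecidableRel G.Adj] (i : Fin n) (g : Fin n → ℕ) :
    ∑ j, g j = ∑ j ∈ G.neighborFinset i, g j + ∑ j ∈ Gᶜ.neighborFinset i, g j + g i := by
  have h1 := sum_add_sum_compl (G.neighborFinset i) g
  have h2 := sum_erase_add (G.neighborFinset i)ᶜ g (a := i) (by simp)
  rw [SimpleGraph.neighborFinset_compl, sdiff_singleton_eq_erase]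
  omega

theorem red (G : SimpleGraph (Fin 20)) [DecidableRel G.Adj]
    (hp : ∀ i, 0 < G.degree i)
    (hm : ∀ i, ∑ j ∈ G.neighborFinset i, G.degree j = 16 * G.degree i)
    (hn : ∃ i j, G.degree i ≠ G.degree j)
    (T : ∀ a m, 0 < a → a < 30 → a % 2 = 0 → m ≤ 1 →
      ∃ C, go (chk a C) m (a + 4 + m) (a + 40) 18 20 (a + 40) (20 * a + 80) [] = true) :
    False := by
  obtain ⟨d, hd⟩ : ∃ d : Fin 20 → ℕ, ∀ i, G.degree i = d i := ⟨_, fun _ => rfl⟩
  have q1 := sq_sum G (fun j => G.degree j)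
  have hc : ∀ i, Gᶜ.degree i = 19 - d i := by
    intro i
    rw [SimpleGraph.degree_compl, hd]; simp
  have hsplit := split G
  simp only [hd] at hp hm hn q1
  have hlt : ∀ i, d i < 20 := by
    intro i
    have := G.degree_lt_card_verts i
    rw [hd] at this; simpa using this
  obtain ⟨D, hD⟩ : ∃ D, D = ∑ i, d i := ⟨_, rfl⟩
  have q2 : ∑ i, d i * d i = 16 * D := by
    rw [← q1, hD, mul_sum]; exact sum_congr rfl fun i _ => hm i
  have q3 : ∑ i, ((d i : ℤ) - 16) ^ 2 = (16 : ℤ) * (320 - (D : ℤ)) := by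
    have e : ∀ i, ((d i : ℤ) - 16) ^ 2 = ((d i * d i : ℕ) : ℤ) - 32 * (d i : ℤ) + 256 := by
      intro i; push_cast; ring
    simp only [e]
    rw [sum_add_distrib, sum_sub_distrib, ← mul_sum, ← Nat.cast_sum, ← Nat.cast_sum, q2, ← hD]
    simp only [sum_const, card_univ, Fintype.card_fin]
    push_cast; ring
  have q4 : 0 < ∑ i, ((d i : ℤ) - 16) ^ 2 := by
    refine sum_pos' (fun i _ => sq_nonneg _) ?_
    by_contra hh
    push Not at hh
    obtain ⟨i, j, hij⟩ := hn
    have h1 := hh i (mem_univ _)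
    have h2 := hh j (mem_univ _)
    have h3 : (d i : ℤ) - 16 = 0 := by nlinarith
    have h4 : (d j : ℤ) - 16 = 0 := by nlinarith
    omega
  obtain ⟨a, ha⟩ : ∃ a, a + D = 320 := ⟨320 - D, by omega⟩
  have ha0 : 0 < a := by omega
  have h18 : ∀ i, d i ≤ 18 := by
    intro i
    have := hsplit i d
    rw [hm, ← hD] at this
    omega
  obtain ⟨u, hu⟩ : ∃ u : Fin 20 → ℕ, ∀ i, u i + d i = 18 :=
    ⟨fun i => 18 - d i, fun i => by have := h18 i; simp only; omega⟩
  have hdeg : ∀ i, Gᶜ.degree i = u i + 1 := by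
    intro i; have := hu i; rw [hc]; omega
  have hu18 : ∀ i, u i < 18 := by
    intro i; have := hu i; have := hp i; omega
  have ht : ∑ i, u i = a + 40 := by
    have : ∑ i, (u i + d i) = ∑ _i : Fin 20, 18 := sum_congr rfl fun i _ => hu i
    rw [sum_add_distrib, ← hD] at this
    simp only [sum_const, card_univ, Fintype.card_fin, smul_eq_mul] at this
    omega
  have hs : ∀ i, ∑ j ∈ Gᶜ.neighborFinset i, u j = a + u i + 4 := by
    intro i
    have h1 := hsplit i d
    rw [hm, ← hD] at h1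
    have h2 : ∑ j ∈ Gᶜ.neighborFinset i, (u j + d j) = ∑ _j ∈ Gᶜ.neighborFinset i, 18 :=
      sum_congr rfl fun j _ => hu j
    rw [sum_add_distrib] at h2
    simp only [sum_const, smul_eq_mul, SimpleGraph.card_neighborFinset_eq_degree, hdeg] at h2
    have := hu i
    omega
  have hq : ∑ i, u i * u i = 20 * a + 80 := by
    have h1 := sq_sum Gᶜ u
    simp only [hs, hdeg, add_mul, one_mul, sum_add_distrib, ht, sum_const, card_univ,
      Fintype.card_fin, smul_eq_mul] at h1
    omega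
  have hev : a % 2 = 0 := by
    have h1 := Gᶜ.sum_degrees_eq_twice_card_edges
    simp only [hdeg, sum_add_distrib, ht, sum_const, card_univ, Fintype.card_fin,
      smul_eq_mul] at h1
    omega
  have hsm : ∃ i, u i ≤ 1 := by
    by_contra hh
    push Not at hh
    have h1 : ∑ i, (u i * u i + 34) ≤ ∑ i, 19 * u i := by
      refine sum_le_sum fun i _ => ?_
      have h2 := hh i
      have h3 := hu18 i
      obtain ⟨x, hx⟩ : ∃ x, u i = x + 2 := ⟨u i - 2, by omega⟩
      rw [hx] at h3 ⊢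
      nlinarith
    rw [sum_add_distrib, ← mul_sum, hq, ht] at h1
    simp only [sum_const, card_univ, Fintype.card_fin, smul_eq_mul] at h1
    omega
  obtain ⟨i, -, hi⟩ := exists_min_image univ u univ_nonempty
  have hm1 : u i ≤ 1 := by
    obtain ⟨j, hj⟩ := hsm
    exact le_trans (hi j (mem_univ _)) hj
  have ha30 : a < 30 := by
    have h1 : ∑ j ∈ Gᶜ.neighborFinset i, u j ≤ ∑ _j ∈ Gᶜ.neighborFinset i, 17 :=
      sum_le_sum fun j _ => by have := hu18 j; omega
    rw [hs] at h1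
    simp only [sum_const, smul_eq_mul, SimpleGraph.card_neighborFinset_eq_degree, hdeg] at h1
    omega
  have hN : ∃ j1 j2, j1 ≠ j2 ∧ a + 4 + u i ≤ u j1 + u i * u j2 := by
    have h1 := hs i
    have h2 : (Gᶜ.neighborFinset i).card = u i + 1 := by
      rw [SimpleGraph.card_neighborFinset_eq_degree, hdeg]
    rcases Nat.le_one_iff_eq_zero_or_eq_one.1 hm1 with h | h
    · rw [h] at h2
      obtain ⟨j, hj⟩ := card_eq_one.1 h2
      rw [hj, sum_singleton] at h1
      refine ⟨j, i, fun e => ?_, by rw [h]; omega⟩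
      rw [e] at h1
      omega
    · rw [h] at h2
      obtain ⟨x, y, hxy, hj⟩ := card_eq_two.1 h2
      rw [hj, sum_pair hxy] at h1
      exact ⟨x, y, hxy, by rw [h]; omega⟩
  obtain ⟨C, hC⟩ := T a (u i) ha0 ha30 hev hm1
  exact core Gᶜ u a hdeg hu18 hs ht hq C (u i) hm1 (fun j => hi j (mem_univ _)) hN hC

end Pool.Agent.H.MP_1ed35b_co.D
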