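import Mathlib

namespace Pool.Agent.H.MP_1ed35b_co.E

def ed : List (ℕ × ℕ) :=
  [(4, 6), (6, 11), (17, 6), (7, 0), (14, 3), (0, 10), (13, 14), (12, 18), (5, 12), (18, 5),
    (1, 6), (0, 9), (14, 0), (16, 18), (2, 0), (17, 4), (15, 14), (1, 11), (16, 12), (8, 14)]

def adj (i j : ℕ) : Bool := i != j && !(ed.any fun e => (e.1 == i && e.2 == j) || (e.1 == j && e.2 == i))

lemma adj_symm : ∀ i j : Fin 19, adj i j = true → adj j i = true := by decide +kernel

lemma adj_irr : ∀ i : Fin 19, ¬adj i i = true := by decide +kernel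

def G : SimpleGraph (Fin 19) where
  Adj i j := adj i j = true
  symm := ⟨fun i j => adj_symm i j⟩
  loopless := ⟨fun i => adj_irr i⟩

instance : DecidableRel G.Adj := fun i j => inferInstanceAs (Decidable (adj i j = true))

lemma two : ∀ i j : Fin 19, ∃ k, G.Adj i k ∧ G.Adj k j := by decide +kernel

lemma conn : G.Connected := by
  refine SimpleGraph.Connected.mk fun i j => ?_
  obtain ⟨k, h1, h2⟩ := two i j
  exact h1.reachable.trans h2.reachable

lemma harm : ∀ i, ∑ j ∈ G.neighborFinset i, G.degree j = 16 * G.degree i := by decide +kernel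

lemma pos : ∀ i, 0 < G.degree i := by decide +kernel

lemma nonreg : G.degree 0 ≠ G.degree 7 := by decide +kernel

end Pool.Agent.H.MP_1ed35b_co.E
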